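import Mathlib
import Pool.Agent.KS6_90.HD.Sharp

open Cardinal Ordinal

namespace Pool.Agent.Results.MP_ce56ef_an.Hereditary

/-- `Y` is `(1+)`-separated: distinct points of `Y` are at distance greater than one. -/
def OnePlusSeparated {X : Type} [NormedAddCommGroup X] (Y : Set X) : Prop :=
  ∀ x ∈ Y, ∀ y ∈ Y, x ≠ y → 1 < ‖x - y‖

/-- Distinct points of `Y` are at distance less than `c`; for `c = 1` the set `Y` is
`(1-)`-concentrated. -/
def ConcentratedBelow {X : Type} [NormedAddCommGroup X] (c : ℝ) (Y : Set X) : Prop :=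
  ∀ x ∈ Y, ∀ y ∈ Y, x ≠ y → ‖x - y‖ < c

/-- Alternative (a): the unit sphere contains an uncountable `(1+)`-separated subset. -/
def AltA (X : Type) [NormedAddCommGroup X] : Prop :=
  ∃ Y : Set X, Y ⊆ Metric.sphere 0 1 ∧ ¬ Y.Countable ∧ OnePlusSeparated Y

/-- Alternative (b) with the bound `c` in place of `1`: every uncountable subset of the unit
sphere contains an uncountable subset in which all distances are less than `c`. -/
def AltB (c : ℝ) (X : Type) [NormedAddCommGroup X] : Prop :=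
  ∀ A : Set X, A ⊆ Metric.sphere 0 1 → ¬ A.Countable →
    ∃ B : Set X, B ⊆ A ∧ ¬ B.Countable ∧ ConcentratedBelow c B

/-- Alternative (b'): every uncountable subset of the unit sphere contains, for some positive
`ε`, an uncountable `(1-ε)`-concentrated subset. -/
def AltB' (X : Type) [NormedAddCommGroup X] : Prop :=
  ∀ A : Set X, A ⊆ Metric.sphere 0 1 → ¬ A.Countable →
    ∃ ε : ℝ, 0 < ε ∧ ∃ B : Set X, B ⊆ A ∧ ¬ B.Countable ∧
      ∀ x ∈ B, ∀ y ∈ B, x ≠ y → ‖x - y‖ ≤ 1 - ε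

/-- **The dichotomy fails hereditarily.** There is a nonseparable Banach space `X` over `𝕜 = ℝ`
or `ℂ` such that every uncountable subset of its unit sphere contains two points at distance
less than one, and such that for every nonseparable linear subspace `Y` of `X` (closed or not,
for example `Y = X`) the alternatives (a), (b) and (b') fail; more precisely, for real `c`, every
uncountable subset of the unit sphere of `Y` has an uncountable subset in which all distances are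
less than `c` if and only if `3 / 2 ≤ c`. -/
theorem result (𝕜 : Type) [RCLike 𝕜] :
    ∃ (X : Type) (_ : NormedAddCommGroup X) (_ : NormedSpace 𝕜 X),
      CompleteSpace X ∧ ¬ TopologicalSpace.SeparableSpace X ∧
      (∀ A : Set X, A ⊆ Metric.sphere 0 1 → ¬ A.Countable →
        ∃ x ∈ A, ∃ y ∈ A, x ≠ y ∧ ‖x - y‖ < 1) ∧
      ∀ Y : Submodule 𝕜 X, ¬ TopologicalSpace.SeparableSpace Y →
        ¬ AltA Y ∧ ¬ AltB 1 Y ∧ ¬ AltB' Y ∧ ∀ c : ℝ, AltB c Y ↔ 3 / 2 ≤ c := by
  classical
  -- the index set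
  let Ω : Type := (ℵ₁).ord.ToType
  have hcard : #Ω = ℵ₁ := Cardinal.mk_ord_toType _
  have hΩunc : Uncountable Ω := by
    rw [← not_countable_iff, ← Cardinal.mk_le_aleph0_iff, hcard]
    exact not_le.mpr aleph0_lt_aleph_one
  have hcnt : ∀ a : Ω, (Set.Iio a).Countable := by
    intro a
    rw [← Cardinal.le_aleph0_iff_set_countable, ← Cardinal.lt_aleph_one_iff]
    have h1 := Cardinal.mk_Iio_lt a (by simp [Ω])
    rw [hcard] at h1
    exact h1
  obtain ⟨r, hr⟩ : ∃ r : Ω → ℕ → Bool, Function.Injective r := by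
    have h1 : #Ω ≤ #(ℕ → Bool) := by
      rw [hcard]
      have h2 : #(ℕ → Bool) = 𝔠 := by simp
      rw [h2]
      exact aleph_one_le_continuum
    obtain ⟨f⟩ := h1
    exact ⟨f, f.injective⟩
  obtain ⟨Z, hZ1, hZ0⟩ := Pool.Agent.Helper627_Conc.exists_colouring hcnt
  let S : Submodule 𝕜 (Pool.Agent.Helper627_Conc.EE 𝕜 Ω) :=
    Pool.Agent.Helper627_Conc.XX 𝕜 r Z hr
  have hSc : IsClosed (S : Set (Pool.Agent.Helper627_Conc.EE 𝕜 Ω)) :=
    Submodule.isClosed_topologicalClosure _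
  have hcomplete : CompleteSpace S := hSc.completeSpace_coe
  have hmem : ∀ ζ, Pool.Agent.Helper627_Conc.zz 𝕜 r Z hr ζ ∈ S := fun ζ =>
    Submodule.le_topologicalClosure _ (Submodule.subset_span ⟨ζ, rfl⟩)
  let z : Ω → S := fun ζ => ⟨Pool.Agent.Helper627_Conc.zz 𝕜 r Z hr ζ, hmem ζ⟩
  have hz1 : ∀ ξ η, ξ ≠ η → 1 ≤ ‖z ξ - z η‖ := fun ξ η h =>
    Pool.Agent.Helper627_Conc.one_apart r Z hr h
  have hΩne : Nonempty Ω := by
    by_contra h
    rw [not_nonempty_iff] at h
    exact not_countable_iff.2 hΩunc inferInstance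
  -- close pairs
  have hclose : ∀ A : Set S, A ⊆ Metric.sphere 0 1 → ¬ A.Countable →
      ∃ x ∈ A, ∃ y ∈ A, x ≠ y ∧ ‖x - y‖ < 1 := by
    intro Y hY hYc
    obtain ⟨w, ⟨x, hx, rfl⟩, w', ⟨y, hy, rfl⟩, hne, hlt⟩ :=
      Pool.Agent.Helper627_Conc.sphere_close (𝕜 := 𝕜) r Z hr hZ0 (Subtype.val '' Y)
        (by rintro _ ⟨x, _, rfl⟩; exact x.2)
        (by
          rintro _ ⟨x, hx, rfl⟩
          have := hY hx
          rw [mem_sphere_zero_iff_norm] at this
          exact this)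
        (by
          intro h
          exact hYc (Set.countable_of_injective_of_countable_image
            Subtype.val_injective.injOn h))
    exact ⟨x, hx, y, hy, fun h => hne (by rw [h]), hlt⟩
  refine ⟨S, inferInstance, inferInstance, hcomplete, ?_, hclose, ?_⟩
  · intro hsep
    obtain ⟨D, hDc, hDd⟩ := TopologicalSpace.exists_countable_dense S
    have hpick : ∀ ξ : Ω, ∃ d ∈ D, dist (z ξ) d < 1/2 := by
      intro ξ
      obtain ⟨d, hd, hd'⟩ := Metric.mem_closure_iff.1 (hDd (z ξ)) (1/2) (by norm_num)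
      exact ⟨d, hd, hd'⟩
    choose f hfD hf using hpick
    have hfinj : Function.Injective f := by
      intro ξ η h
      by_contra hne
      have h1 := hz1 ξ η hne
      rw [← dist_eq_norm] at h1
      have h2 : dist (z ξ) (z η) ≤ dist (z ξ) (f ξ) + dist (z η) (f η) := by
        rw [h, dist_comm (z η) (f η)]
        exact dist_triangle _ _ _
      have h3 := hf ξ
      have h4 := hf η
      linarith
    have h1 : (Set.range f).Countable := hDc.mono (by rintro _ ⟨ξ, rfl⟩; exact hfD ξ)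
    have h2 : (f ⁻¹' (Set.range f)).Countable := h1.preimage hfinj
    rw [Set.preimage_range] at h2
    exact Set.not_countable_univ h2
  · intro Y hY
    have hfar : ∀ c : ℝ, c < 3 / 2 → ∃ A : Set Y, A ⊆ Metric.sphere 0 1 ∧ ¬ A.Countable ∧
          ∀ B : Set Y, B ⊆ A → ¬ B.Countable → ∃ x ∈ B, ∃ y ∈ B, x ≠ y ∧ c < ‖x - y‖ := by
      intro c hc
      obtain ⟨δ, hδ, W, hWc, hW⟩ := Pool.Agent.KS6_90.HD.exists_separated hY
      obtain ⟨P, hPc, hP, hPQ⟩ := Pool.Agent.KS6_90.HD.main_family (𝕜 := 𝕜) r Z hr hZ1 hZ0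
        (fun y : Y => ((y : S) : Pool.Agent.Helper627_Conc.EE 𝕜 Ω)) W hWc
        (fun α _ => (α : S).2) hδ
        (fun α hα β hβ hne => by
          have h1 := hW α hα β hβ hne
          rw [dist_eq_norm] at h1
          exact h1) (c := max c 0) (max_lt hc (by norm_num))
      let u : Y × Y → Y := fun p => ((‖p.1 - p.2‖⁻¹ : ℝ) : 𝕜) • (p.1 - p.2)
      have hu : ∀ p q : Y × Y, ‖u p - u q‖ =
          ‖((‖((p.1 : S) : Pool.Agent.Helper627_Conc.EE 𝕜 Ω) - ((p.2 : S) : _)‖⁻¹ : ℝ) : 𝕜) •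
            (((p.1 : S) : Pool.Agent.Helper627_Conc.EE 𝕜 Ω) - ((p.2 : S) : _)) -
          ((‖((q.1 : S) : Pool.Agent.Helper627_Conc.EE 𝕜 Ω) - ((q.2 : S) : _)‖⁻¹ : ℝ) : 𝕜) •
            (((q.1 : S) : Pool.Agent.Helper627_Conc.EE 𝕜 Ω) - ((q.2 : S) : _))‖ :=
        fun p q => rfl
      have hun : ∀ p ∈ P, ‖u p‖ = 1 := by
        intro p hp
        have h1 : p.1 - p.2 ≠ 0 := sub_ne_zero.2 (hP p hp).2.2
        have h2 : 0 < ‖p.1 - p.2‖ := norm_pos_iff.2 h1
        have h3 : 0 < ‖((p.1 : S) : Pool.Agent.Helper627_Conc.EE 𝕜 Ω) - ((p.2 : S) : _)‖ := h2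
        show ‖((‖((p.1 : S) : Pool.Agent.Helper627_Conc.EE 𝕜 Ω) -
            ((p.2 : S) : _)‖⁻¹ : ℝ) : 𝕜) •
            (((p.1 : S) : Pool.Agent.Helper627_Conc.EE 𝕜 Ω) - ((p.2 : S) : _))‖ = 1
        rw [norm_smul, RCLike.norm_ofReal, abs_of_pos (inv_pos.2 h3), inv_mul_cancel₀ h3.ne']
      have hkey : ∀ Q : Set (Y × Y), Q ⊆ P → ¬ Q.Countable →
          ∃ p ∈ Q, ∃ q ∈ Q, max c 0 < ‖u p - u q‖ := by
        intro Q hQ hQc
        obtain ⟨p, hp, q, hq, _, h⟩ := hPQ Q hQ hQc
        exact ⟨p, hp, q, hq, by rw [hu]; exact h⟩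
      have himg : ∀ Q : Set (Y × Y), Q ⊆ P → (u '' Q).Countable → Q.Countable := by
        intro Q hQ hQc
        have hsub : Q ⊆ ⋃ x ∈ u '' Q, {p ∈ Q | u p = x} := by
          intro p hp
          exact Set.mem_iUnion₂.mpr ⟨u p, ⟨p, hp, rfl⟩, hp, rfl⟩
        refine (hQc.biUnion fun x _ => ?_).mono hsub
        by_contra hcon
        obtain ⟨p, hp, q, hq, h⟩ := hkey {p ∈ Q | u p = x} (fun p hp => hQ hp.1) hcon
        have h0 : ‖u p - u q‖ = 0 := by
          rw [hp.2, hq.2, _root_.sub_self]; exact norm_zero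
        rw [h0] at h
        exact absurd h (not_lt.2 (le_max_right _ _))
      refine ⟨u '' P, ?_, fun h => hPc (himg P Set.Subset.rfl h), fun B hB hBc => ?_⟩
      · rintro _ ⟨p, hp, rfl⟩
        rw [mem_sphere_zero_iff_norm]
        exact hun p hp
      · have h1 : ¬ ({p ∈ P | u p ∈ B} : Set (Y × Y)).Countable := by
          intro h
          apply hBc
          refine (h.image u).mono fun x hx => ?_
          obtain ⟨p, hp, rfl⟩ := hB hx
          exact ⟨p, ⟨hp, hx⟩, rfl⟩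
        obtain ⟨p, hp, q, hq, h⟩ := hkey _ (fun p hp => hp.1) h1
        refine ⟨u p, hp.2, u q, hq.2, ?_, lt_of_le_of_lt (le_max_left _ _) h⟩
        intro heq
        have h0 : ‖u p - u q‖ = 0 := by
          rw [heq, _root_.sub_self]; exact norm_zero
        rw [h0] at h
        exact absurd h (not_lt.2 (le_max_right _ _))
    have hB : ∀ c : ℝ, c < 3 / 2 → ¬ AltB c Y := by
      intro c hc hAlt
      obtain ⟨A, hA, hAc, hAB⟩ := hfar c hc
      obtain ⟨B, hBA, hBc, hcon⟩ := hAlt A hA hAc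
      obtain ⟨x, hx, y, hy, hne, hlt⟩ := hAB B hBA hBc
      exact absurd (hcon x hx y hy hne) (not_lt.2 hlt.le)
    refine ⟨?_, hB 1 (by norm_num), ?_, fun c => ⟨fun h => ?_, fun h => ?_⟩⟩
    · rintro ⟨V, hV, hVc, hsep⟩
      obtain ⟨x, ⟨x', hx', rfl⟩, y, ⟨y', hy', rfl⟩, hne, hlt⟩ :=
        hclose (Subtype.val '' V)
          (by
            rintro _ ⟨x, hx, rfl⟩
            have h1 := hV hx
            rw [mem_sphere_zero_iff_norm] at h1 ⊢
            exact h1)
          (fun h => hVc (Set.countable_of_injective_of_countable_image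
            Subtype.val_injective.injOn h))
      have h1 := hsep x' hx' y' hy' (fun h => hne (by rw [h]))
      have h2 : ‖x' - y'‖ = ‖(x' : S) - (y' : S)‖ := rfl
      rw [h2] at h1
      linarith
    · intro hAlt
      obtain ⟨A, hA, hAc, hAB⟩ := hfar 1 (by norm_num)
      obtain ⟨ε, hε, B, hBA, hBc, hcon⟩ := hAlt A hA hAc
      obtain ⟨x, hx, y, hy, hne, hlt⟩ := hAB B hBA hBc
      have := hcon x hx y hy hne
      linarith
    · by_contra hlt
      exact hB c (not_le.1 hlt) h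
    · intro A hA hAc
      obtain ⟨W', hW', hW'c, hlt⟩ := Pool.Agent.KS6_90.HD.sphere_sharp (𝕜 := 𝕜) r Z hr
        ((fun y : Y => ((y : S) : Pool.Agent.Helper627_Conc.EE 𝕜 Ω)) '' A)
        (by rintro _ ⟨x, _, rfl⟩; exact (x : S).2)
        (by
          rintro _ ⟨x, hx, rfl⟩
          have h1 := hA hx
          rw [mem_sphere_zero_iff_norm] at h1
          exact h1)
        (fun h => hAc (Set.countable_of_injective_of_countable_image
          (Set.injOn_of_injective (Subtype.val_injective.comp Subtype.val_injective)) h))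
      refine ⟨{x ∈ A | ((x : S) : Pool.Agent.Helper627_Conc.EE 𝕜 Ω) ∈ W'}, fun x hx => hx.1,
        fun h2 => hW'c ?_, fun x hx y hy _ => ?_⟩
      · refine (h2.image (fun y : Y => ((y : S) : Pool.Agent.Helper627_Conc.EE 𝕜 Ω))).mono ?_
        intro w hw
        obtain ⟨x, hx, rfl⟩ := hW' hw
        exact ⟨x, ⟨hx, hw⟩, rfl⟩
      · exact lt_of_lt_of_le (hlt _ hx.2 _ hy.2) h

end Pool.Agent.Results.MP_ce56ef_an.Hereditary
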